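import Mathlib
import Pool.Agent.Helper78_Biseq.Defs
import Pool.Agent.Helper78_Biseq.Basic
import Pool.Agent.Helper78_Biseq.Para

set_option autoImplicit false

open Pool.Agent.Helper78_Biseq

namespace Pool.Agent.Results.MP_018dae_gt.ParacompactBisequential

universe v

/-- Let `X` be a compact Hausdorff space in which the complement of every point is paracompact (for
example, a hereditarily paracompact compact space). Then `X` is bisequential if and only if every
countably complete ultrafilter on the set `X` is principal, that is, the cardinality of `X` is
smaller than the first measurable cardinal. -/
theorem result (X : Type v) [TopologicalSpace X] [CompactSpace X] [T2Space X]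
    (hp : ∀ x : X, ParacompactSpace {z : X // z ≠ x}) :
    Bisequential X ↔
      ∀ U : Ultrafilter X, CountableInterFilter (U : Filter X) → ∃ x, U = pure x :=
  ⟨fun h U hU => principal_of_bisequential h U hU,
    fun h => bisequential_of_good (fun x => goodAt_of_paracompact x (hp x)) h⟩

end Pool.Agent.Results.MP_018dae_gt.ParacompactBisequential
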